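import Pool.Agent.T9h90.SP.Spec

/-!
# Project SP: RG (ranges of increasing functions) and SB (unbounded subsets of Sigma_1 sets)
-/

set_option autoImplicit false

namespace Pool.Agent.T9h8.SP

open Pool.Agent.Helper617.RM Pool.Agent.H645R2.R Pool.Agent.T9h90.SP

universe u

theorem rg : S_RG.{u} := by
  intro N _ g hg hs
  have hG : GF g := hg
  have h1 : ∀ m n, m < n → g m < g n := by
    intro m n hmn
    obtain ⟨d, hd⟩ := (lt_iff_add'' m n).1 hmn
    have key : ∀ d, g m < g (m + d + 1) := by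
      intro d
      refine ind_S1 (P := fun d => g m < g (m + d + 1)) ?_ ?_ ?_ d
      · exact (D1.lt (DG.app hG (DG.const m)) (DG.app hG
          (DG.tm (((Tm.const m).add (Tm.var 0)).add Tm.one)))).1
      · change g m < g (m + 0 + 1)
        rw [add_zero]
        exact hs m
      · intro n ih
        refine lt_trans ih ?_
        rw [← add_assoc m n 1]
        exact hs _
    rw [hd]
    exact key d
  have h2 : ∀ n, n ≤ g n := by
    intro n
    refine ind_S1 (P := fun n => n ≤ g n) ?_ (zero_le' _) (fun n ih => ?_) n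
    · exact (D1.le (DG.var 0) (DG.app hG (DG.var 0))).1
    · exact add_one_le_iff'.2 (lt_of_le_of_lt ih (hs n))
  refine ⟨h1, h2, fun I hI => ⟨?_, fun hu b => ?_⟩⟩
  · have h3 : D1 (fun v : Ctx N => ∃ i, i < v 0 + 1 ∧ (i ∈ I ∧ v 0 = g i)) := by
      refine D1.bex (P := fun v i => i ∈ I ∧ v 0 = g i)
        (DG.tm ((Tm.var 0).add Tm.one)) (D1.and (D1.mem (DG.var 0) hI) ?_)
      exact D1.eq (DG.var 1) (DG.app hG (DG.var 0))
    have h4 : ∀ y, (∃ i, i < y + 1 ∧ (i ∈ I ∧ y = g i)) ↔ ∃ i ∈ I, y = g i := fun y => by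
      constructor
      · rintro ⟨i, -, h⟩
        exact ⟨i, h⟩
      · rintro ⟨i, hi, h⟩
        exact ⟨i, lt_add_one_iff'.2 (h ▸ h2 i), hi, h⟩
    have h5 := h3.congr (S := fun v : Ctx N => ∃ i ∈ I, v 0 = g i) fun v => h4 (v 0)
    exact comp_D1 (P := fun y => ∃ i ∈ I, y = g i) h5.1 h5.2
  · obtain ⟨i, hi, hb⟩ := hu b
    exact ⟨g i, ⟨i, hi, rfl⟩, lt_of_lt_of_le hb (h2 i)⟩

theorem sb : S_SQ.{u} → S_RG.{u} → S_SB.{u} := by
  intro hsq hrg N _ K hK hU
  obtain ⟨g, hg, hgK⟩ := hsq N K (fun x y => x < y) hK (D0.lt (Tm.var 0) (Tm.var 1)).S1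
    (by obtain ⟨y, hy, -⟩ := hU 0; exact ⟨y, hy⟩)
    (fun x _ => by obtain ⟨y, hy, hxy⟩ := hU x; exact ⟨y, hy, hxy⟩)
  obtain ⟨-, -, h3⟩ := hrg N g hg fun n => (hgK n).2
  have huniv : (Set.univ : Set N.M) ∈ N.Sets := by
    have := comp_D0 (N := N) (P := fun _ => True) D0.true
    simpa using this
  obtain ⟨h4, h5⟩ := h3 Set.univ huniv
  refine ⟨_, h4, h5 fun b => ⟨b + 1, trivial, lt_add_one_iff'.2 le_rfl⟩, ?_⟩
  rintro x ⟨i, -, rfl⟩
  exact (hgK i).1

end Pool.Agent.T9h8.SP
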